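import Mathlib

/-!
# Nonzero base-`p` digits of `n` versus those of `n ^ 2`

For every prime `p` (even every base `p ≥ 2`) the number of nonzero base-`p` digits of `n` is unbounded
on the set of the `n` whose square has at most `10` nonzero base-`p` digits.

The polynomial `P = 1 + 2 X - X ^ 2 + 2 X ^ 3 + X ^ 4` has a negative coefficient, but
`P ^ 2 = 1 + 4 X + 2 X ^ 2 + 11 X ^ 4 + 2 X ^ 6 + 4 X ^ 7 + X ^ 8` has none. For `n = P (p ^ k)` the
square has the boundedly many nonzero digits of the coefficients of `P ^ 2`, while `n` itself has a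
block of `k` digits `p - 1`.
-/

set_option autoImplicit false

namespace Pool.Agent.Results.MP_dd1d4c_nt.SquaresWithFewDigits

/-- `N p m` is the number of nonzero digits of `m` in base `p`. -/
def N (p m : ℕ) : ℕ := (Nat.digits p m).countP (fun d => d ≠ 0)

theorem N_zero (b : ℕ) : N b 0 = 0 := by simp [N]

/-- concatenation of expansions -/
theorem N_add_mul {b : ℕ} (hb : 1 < b) (k x y : ℕ) (hx : x < b ^ k) :
    N b (x + b ^ k * y) = N b x + N b y := by
  rcases Nat.eq_zero_or_pos y with hy | hy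
  · subst hy
    simp [N_zero]
  · have hlen : (Nat.digits b x).length ≤ k := by
      rw [Nat.digits_length_le_iff hb]
      exact hx
    have h := Nat.digits_append_zeroes_append_digits (k := k - (Nat.digits b x).length) (n := x) hb hy
    rw [Nat.add_sub_cancel' hlen] at h
    unfold N
    rw [← h, List.countP_append, List.countP_append, List.countP_replicate]
    simp

/-- `b ^ k - 1` has `k` nonzero digits. -/
theorem N_pow_sub_one {b : ℕ} (hb : 1 < b) (k : ℕ) : N b (b ^ k - 1) = k := by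
  induction k with
  | zero => simp [N_zero]
  | succ k ih =>
    have h1 : 1 ≤ b ^ k := Nat.one_le_pow _ _ (by omega)
    have h2 : b ^ (k + 1) - 1 = (b - 1) + b ^ 1 * (b ^ k - 1) := by
      obtain ⟨c, hc⟩ : ∃ c, b ^ k = c + 1 := ⟨b ^ k - 1, by omega⟩
      obtain ⟨d, rfl⟩ : ∃ d, b = d + 1 := ⟨b - 1, by omega⟩
      rw [pow_succ, hc, pow_one]
      simp only [Nat.add_sub_cancel]
      rw [show (c + 1) * (d + 1) = (d + (d + 1) * c) + 1 by ring]
      simp
    have h3 : N b (b - 1) = 1 := by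
      unfold N
      rw [Nat.digits_of_lt b (b - 1) (by omega) (by omega)]
      simp
      omega
    rw [h2, N_add_mul hb 1 _ _ (by rw [pow_one]; omega), h3, ih]
    omega

/-- the digits of the coefficients `1, 4, 2, 11` -/
theorem coeff_digits {b : ℕ} (hb : 1 < b) :
    N b 1 + N b 4 + N b 2 + N b 11 + N b 2 + N b 4 + N b 1 ≤ 10 := by
  rcases lt_or_ge b 12 with h | h
  · interval_cases b <;> simp [N]
  · have key : ∀ d : ℕ, 0 < d → d < b → N b d = 1 := by
      intro d hd hdb
      unfold N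
      rw [Nat.digits_of_lt b d hd.ne' hdb]
      simp [hd.ne']
    rw [key 1 (by omega) (by omega), key 4 (by omega) (by omega), key 2 (by omega) (by omega),
      key 11 (by omega) (by omega)]
    norm_num

/-- The explicit family: for `k ≥ 4` and `n = p ^ (4 k) + 2 p ^ (3 k) - p ^ (2 k) + 2 p ^ k + 1` the
square of `n` has at most `10` nonzero digits and `n` has at least `k` nonzero digits. -/
theorem family {b : ℕ} (hb : 1 < b) (k : ℕ) (hk : 4 ≤ k) :
    ∃ n : ℕ, n + b ^ (2 * k) = b ^ (4 * k) + 2 * b ^ (3 * k) + 2 * b ^ k + 1 ∧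
      N b (n ^ 2) ≤ 10 ∧ k ≤ N b n := by
  have hX : 16 ≤ b ^ k := by
    calc 16 = 2 ^ 4 := by norm_num
      _ ≤ 2 ^ k := Nat.pow_le_pow_right (by norm_num) hk
      _ ≤ b ^ k := Nat.pow_le_pow_left hb k
  have hN := N_pow_sub_one hb k
  have hadd := fun x y hx => N_add_mul hb k x y hx
  have e2 : b ^ (2 * k) = (b ^ k) ^ 2 := by rw [← pow_mul]; ring_nf
  have e3 : b ^ (3 * k) = (b ^ k) ^ 3 := by rw [← pow_mul]; ring_nf
  have e4 : b ^ (4 * k) = (b ^ k) ^ 4 := by rw [← pow_mul]; ring_nf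
  rw [e2, e3, e4]
  generalize b ^ k = X at *
  obtain ⟨Y, rfl⟩ : ∃ Y, X = Y + 1 := ⟨X - 1, by omega⟩
  rw [Nat.add_sub_cancel] at hN
  refine ⟨1 + (Y + 1) * (2 + (Y + 1) * (Y + (Y + 1) * (1 + (Y + 1) * 1))), by ring, ?_, ?_⟩
  · have hsq : (1 + (Y + 1) * (2 + (Y + 1) * (Y + (Y + 1) * (1 + (Y + 1) * 1)))) ^ 2 =
        1 + (Y + 1) * (4 + (Y + 1) * (2 + (Y + 1) * (0 + (Y + 1) * (11 + (Y + 1) * (0 + (Y + 1) *
          (2 + (Y + 1) * (4 + (Y + 1) * 1))))))) := by ring
    rw [hsq, hadd 1 _ (by omega), hadd 4 _ (by omega), hadd 2 _ (by omega), hadd 0 _ (by omega),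
      hadd 11 _ (by omega), hadd 0 _ (by omega), hadd 2 _ (by omega), hadd 4 _ (by omega), N_zero]
    have := coeff_digits hb
    omega
  · rw [hadd 1 _ (by omega), hadd 2 _ (by omega), hadd Y _ (by omega), hN]
    omega

/-- **The answer to Q1 is negative for every prime `p`.** For every prime `p` the number of nonzero
base-`p` digits of `n` is unbounded on the set of all `n` whose square has at most `10` nonzero
base-`p` digits. -/
theorem result (p : ℕ) (hp : p.Prime) : ∀ ℓ : ℕ, ∃ n : ℕ, N p (n ^ 2) ≤ 10 ∧ ℓ < N p n := by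
  intro ℓ
  obtain ⟨n, -, h1, h2⟩ := family hp.one_lt (ℓ + 4) (by omega)
  exact ⟨n, h1, by omega⟩

/-- Q1 in the wording of the problem: for no prime `p` is it true that for every `s` there is `ℓ` such
that `N p (n ^ 2) ≤ s` implies `N p n ≤ ℓ`. -/
theorem Q1_false (p : ℕ) (hp : p.Prime) :
    ¬ ∀ s : ℕ, 1 ≤ s → ∃ ℓ : ℕ, ∀ n : ℕ, N p (n ^ 2) ≤ s → N p n ≤ ℓ := by
  intro h
  obtain ⟨ℓ, hℓ⟩ := h 10 (by norm_num)
  obtain ⟨n, h1, h2⟩ := result p hp ℓ
  exact absurd (hℓ n h1) (by omega)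

end Pool.Agent.Results.MP_dd1d4c_nt.SquaresWithFewDigits
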